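import Pool.Agent.N236.UR.Stm4
import Pool.Agent.N160.UR.STG

/-!
Project UR (helper236), part GSP: powers with good exponents are good stages
(helper281, after `Pool/Agent/N160/UR/STG.lean` by helper160).
-/

set_option autoImplicit false

namespace Pool.Agent.N281.UR.GSP

open Finset Pool.Agent.N236.UR Pool.Agent.N236.UB Pool.Agent.N160.UR.STG

variable {L : Type} [Field L] {v : AbsoluteValue L ℝ}

theorem eq_of_sub_lt (hna : ∀ x y : L, v (x + y) ≤ max (v x) (v y)) {u w : L}
    (h : v (u - w) < v w) : v u = v w := by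
  apply le_antisymm
  · have h1 := hna (u - w) w
    rw [sub_add_cancel] at h1
    exact h1.trans (max_le h.le le_rfl)
  · have h1 := hna (w - u) u
    rw [sub_add_cancel] at h1
    have h2 : v (w - u) = v (u - w) := by
      rw [← map_neg_eq_map v (w - u), neg_sub]
    rw [h2] at h1
    rcases le_max_iff.1 h1 with h3 | h3
    · exact absurd h (not_lt.2 h3)
    · exact h3

/-- the value of the factor at a pair, positive -/
noncomputable def GG (v : AbsoluteValue L ℝ) (l : ℕ) (x y : L × L) : ℝ :=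
  mm v x y ^ (l - 1) * lam v l x y

theorem mm_pos {x y : L × L} (h : wd x y ≠ 0) : 0 < mm v x y := by
  by_contra hcon
  push Not at hcon
  apply h
  unfold mm at hcon
  have h1 : v (x.1 * y.2) = 0 := le_antisymm ((le_max_left _ _).trans hcon) (v.nonneg _)
  have h2 : v (x.2 * y.1) = 0 := le_antisymm ((le_max_right _ _).trans hcon) (v.nonneg _)
  rw [AbsoluteValue.eq_zero] at h1 h2
  unfold wd
  rw [h1, h2, sub_zero]

theorem lam_pos {l : ℕ} (hl : (l : L) ≠ 0) (x y : L × L) : 0 < lam v l x y := by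
  unfold lam
  split_ifs
  · exact v.pos hl
  · exact one_pos

theorem GG_pos {l : ℕ} (hl : (l : L) ≠ 0) {x y : L × L} (h : wd x y ≠ 0) : 0 < GG v l x y :=
  mul_pos (pow_pos (mm_pos h) _) (lam_pos hl x y)

theorem eq_of_prod {m m' a a' : ℝ} {k : ℕ} (hk : k ≠ 0) (hm : 0 < m) (hmm' : m ≤ m')
    (ha : 0 < a) (haa' : a ≤ a') (h : m ^ k * a = m' ^ k * a') : m = m' := by
  by_contra hne
  have hlt : m < m' := lt_of_le_of_ne hmm' hne
  have h1 : m ^ k < m' ^ k := pow_lt_pow_left₀ hlt hm.le hk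
  have h2 : m ^ k * a < m' ^ k * a' :=
    mul_lt_mul h1 haa' ha (pow_nonneg (hm.le.trans hmm') _)
  exact absurd h h2.ne

/-- the key inequality -/
theorem key2 (hna : ∀ x y : L, v (x + y) ≤ max (v x) (v y)) {l : ℕ} (hs : S_SC)
    (hl : GoodL v l) (X U J J' : L × L) (hXJ : wd X J ≠ 0) (hXJ' : wd X J' ≠ 0)
    (hUJ : wd U J ≠ 0) (hUJ' : wd U J' ≠ 0) (hmm : mm v J J' = nu v J * nu v J')
    (hJ : 0 < nu v J) (hJ' : 0 < nu v J') (hrel : v (wd J J') < nu v J * nu v J') :
    v (Phi l X J * Phi l U J' - Phi l X J' * Phi l U J) < v (Phi l X J' * Phi l U J) := by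
  have hb1 : v (J.1 * J'.2) ≤ nu v J * nu v J' := v1_le J J'
  have hb2 : v (J.2 * J'.1) ≤ nu v J * nu v J' := v2_le J J'
  -- both products have maximal absolute value
  have hp : v (J.1 * J'.2) = nu v J * nu v J' ∧ v (J.2 * J'.1) = nu v J * nu v J' := by
    unfold mm at hmm
    rcases max_choice (v (J.1 * J'.2)) (v (J.2 * J'.1)) with h | h
    · rw [h] at hmm
      refine ⟨hmm, ?_⟩
      have h1 : v (J.2 * J'.1 - J.1 * J'.2) < v (J.1 * J'.2) := by
        have e : J.2 * J'.1 - J.1 * J'.2 = -wd J J' := by unfold wd; ring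
        rw [e, map_neg_eq_map, hmm]
        exact hrel
      rw [eq_of_sub_lt hna h1, hmm]
    · rw [h] at hmm
      refine ⟨?_, hmm⟩
      have h1 : v (J.1 * J'.2 - J.2 * J'.1) < v (J.2 * J'.1) := by
        have e : J.1 * J'.2 - J.2 * J'.1 = wd J J' := by unfold wd; ring
        rw [e, hmm]
        exact hrel
      rw [eq_of_sub_lt hna h1, hmm]
  have hpos : 0 < nu v J * nu v J' := mul_pos hJ hJ'
  have hne : ∀ z : L, 0 < v z → z ≠ 0 := by
    intro z hz h
    rw [h, map_zero] at hz
    exact lt_irrefl _ hz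
  have hJ1 : J.1 ≠ 0 := by
    intro h
    have h1 := hp.1
    rw [h, zero_mul, map_zero] at h1
    linarith
  have hJ2 : J.2 ≠ 0 := by
    intro h
    have h1 := hp.2
    rw [h, zero_mul, map_zero] at h1
    linarith
  have hJ'1 : J'.1 ≠ 0 := by
    intro h
    have h1 := hp.2
    rw [h, mul_zero, map_zero] at h1
    linarith
  obtain ⟨s, hsdef⟩ : ∃ s, s = J'.1 / J.1 := ⟨_, rfl⟩
  obtain ⟨δ, hδ⟩ : ∃ δ, δ = wd J J' / (J.2 * J'.1) := ⟨_, rfl⟩
  have hs0 : s ≠ 0 := by
    rw [hsdef]
    exact div_ne_zero hJ'1 hJ1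
  have hvs : 0 < v s := v.pos hs0
  have hvδ : v δ < 1 := by
    rw [hδ, map_div₀, hp.2, div_lt_one hpos]
    exact hrel
  have e1 : J'.1 = s * J.1 := by
    rw [hsdef]
    field_simp
  have e2 : J'.2 = s * (J.2 * (1 + δ)) := by
    rw [hsdef, hδ]
    unfold wd
    field_simp
    ring
  have eJ' : J' = (s * J.1, s * (J.2 * (1 + δ))) := Prod.ext e1 e2
  have hE : ∀ x : L × L, wd x J ≠ 0 → wd x J' ≠ 0 →
      v (Phi l x J' - s ^ (l - 1) * Phi l x J) < v (s ^ (l - 1) * Phi l x J) := by
    intro x h1 h2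
    have hA : x.1 * J.2 ≠ x.2 * J.1 := by
      intro h
      apply h1
      unfold wd
      rw [h, sub_self]
    have hA' : x.1 * J.2 * (1 + δ) ≠ x.2 * J.1 := by
      intro h
      apply h2
      unfold wd
      rw [e1, e2]
      have : x.1 * (s * (J.2 * (1 + δ))) - x.2 * (s * J.1) =
          s * (x.1 * J.2 * (1 + δ) - x.2 * J.1) := by ring
      rw [this, h, sub_self, mul_zero]
    have h3 := hs L v l hna hl (x.1 * J.2) (x.2 * J.1) δ hvδ hA hA'
    have h4 : Phi l x J = FF l (x.1 * J.2) (x.2 * J.1) := rfl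
    have h5 : Phi l x J' = s ^ (l - 1) * FF l (x.1 * J.2 * (1 + δ)) (x.2 * J.1) := by
      rw [eJ']
      have h6 := Phi_smul l x (J.1, J.2 * (1 + δ)) s
      simp only at h6
      rw [h6]
      congr 1
      unfold Phi FF
      simp only
      rw [mul_assoc]
    rw [h5, h4, ← mul_sub, map_mul, map_mul]
    exact mul_lt_mul_of_pos_left h3 (v.pos (pow_ne_zero _ hs0))
  have hX := hE X hXJ hXJ'
  have hU := hE U hUJ hUJ'
  have hX' := eq_of_sub_lt hna hX
  have hpX : 0 < v (Phi l X J) := by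
    have h1 : 0 < v (s ^ (l - 1) * Phi l X J) := lt_of_le_of_lt (v.nonneg _) hX
    rw [map_mul] at h1
    exact pos_of_mul_pos_right h1 (v.nonneg _)
  have hpU : 0 < v (Phi l U J) := by
    have h1 : 0 < v (s ^ (l - 1) * Phi l U J) := lt_of_le_of_lt (v.nonneg _) hU
    rw [map_mul] at h1
    exact pos_of_mul_pos_right h1 (v.nonneg _)
  have e : Phi l X J * Phi l U J' - Phi l X J' * Phi l U J =
      Phi l X J * (Phi l U J' - s ^ (l - 1) * Phi l U J) +
        -((Phi l X J' - s ^ (l - 1) * Phi l X J) * Phi l U J) := by ring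
  rw [e, map_mul v (Phi l X J') (Phi l U J), hX']
  refine (hna _ _).trans_lt (max_lt ?_ ?_)
  · rw [map_mul]
    calc v (Phi l X J) * v (Phi l U J' - s ^ (l - 1) * Phi l U J)
        < v (Phi l X J) * v (s ^ (l - 1) * Phi l U J) := mul_lt_mul_of_pos_left hU hpX
      _ = v (s ^ (l - 1) * Phi l X J) * v (Phi l U J) := by
          rw [map_mul, map_mul]
          ring
  · rw [map_neg_eq_map, map_mul]
    exact mul_lt_mul_of_pos_right hX hpU

theorem t_gsp : S_SC → S_EP2 → S_GSP := by
  intro hs hEP L _ v l hna hl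
  obtain ⟨hF, h4⟩ := hEP L v l hna hl
  have hl0 : (l : L) ≠ 0 := hl.2.1
  have hl2 : 2 ≤ l := hl.1
  have hF' : ∀ x y : L × L, v (wd (pw l x) (pw l y)) = v (wd x y) * GG v l x y := hF
  have hG4 : ∀ a b c d : L × L, wd a b ≠ 0 → wd c d ≠ 0 → wd a c ≠ 0 → wd b d ≠ 0 →
      mm v a b * mm v c d ≤ mm v a c * mm v b d →
      lam v l a b * lam v l c d ≤ lam v l a c * lam v l b d →
      GG v l a b * GG v l c d ≤ GG v l a c * GG v l b d := by
    intro a b c d hab hcd hac hbd h1 h2
    have e1 : GG v l a b * GG v l c d =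
        (mm v a b * mm v c d) ^ (l - 1) * (lam v l a b * lam v l c d) := by
      unfold GG
      rw [mul_pow]
      ring
    have e2 : GG v l a c * GG v l b d =
        (mm v a c * mm v b d) ^ (l - 1) * (lam v l a c * lam v l b d) := by
      unfold GG
      rw [mul_pow]
      ring
    rw [e1, e2]
    exact mul_le_mul (pow_le_pow_left₀ (mul_pos (mm_pos hab) (mm_pos hcd)).le h1 _) h2
      (mul_pos (lam_pos hl0 _ _) (lam_pos hl0 _ _)).le
      (pow_nonneg (mul_pos (mm_pos hac) (mm_pos hbd)).le _)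
  refine ⟨?_, ?_, ?_⟩
  · intro x y
    constructor
    · intro h
      by_contra hne
      have h1 := hF' x y
      rw [h, map_zero] at h1
      have h2 : 0 < v (wd x y) * GG v l x y := mul_pos (v.pos hne) (GG_pos hl0 hne)
      linarith
    · intro h
      have h1 := hF' x y
      rw [h, map_zero, zero_mul, AbsoluteValue.eq_zero] at h1
      exact h1
  · intro a b c d hab hac had hbc hbd hcd hle
    obtain ⟨h1, h2⟩ := h4 a b c d hab hac had hbc hbd hcd hle
    have h3 := hG4 a b c d hab hcd hac hbd h1 h2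
    rw [hF' a b, hF' c d, hF' a c, hF' b d]
    have h5 : 0 ≤ v (wd a b) * v (wd c d) * (v (wd a c) * v (wd b d)) :=
      mul_nonneg (mul_nonneg (v.nonneg _) (v.nonneg _)) (mul_nonneg (v.nonneg _) (v.nonneg _))
    calc v (wd a b) * GG v l a b * (v (wd c d) * GG v l c d) * (v (wd a c) * v (wd b d))
        = (v (wd a b) * v (wd c d) * (v (wd a c) * v (wd b d))) * (GG v l a b * GG v l c d) := by
          ring
      _ ≤ (v (wd a b) * v (wd c d) * (v (wd a c) * v (wd b d))) * (GG v l a c * GG v l b d) :=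
          mul_le_mul_of_nonneg_left h3 h5
      _ = _ := by ring
  intro n V hn hV hyp
  have hnz : ∀ i j : ℤ, ¬ (n : ℤ) ∣ i - j → wd (V i) (V j) ≠ 0 := fun i j h h0 => h ((hV.2 i j).1 h0)
  have hsym : ∀ i j : ℤ, ¬ (n : ℤ) ∣ i - j → ¬ (n : ℤ) ∣ j - i := by
    intro i j h h'
    exact h (by rw [← neg_sub]; exact (dvd_neg).2 h')
  have hH : ∀ a b c d : ℤ, Dis4 n a b c d →
      mm v (V a) (V b) * mm v (V c) (V d) = mm v (V a) (V c) * mm v (V b) (V d) := by
    intro a b c d hD
    have hD' := hD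
    obtain ⟨hab, hac, had, hbc, hbd, hcd⟩ := hD
    have wab := hnz a b hab
    have wac := hnz a c hac
    have wad := hnz a d had
    have wbc := hnz b c hbc
    have wbd := hnz b d hbd
    have wcd := hnz c d hcd
    have wcb := hnz c b (hsym _ _ hbc)
    have h1 := hyp a b c d hD'
    rw [hF' (V a) (V b), hF' (V c) (V d), hF' (V a) (V c), hF' (V b) (V d)] at h1
    have hpos : 0 < v (wd (V a) (V b)) * v (wd (V c) (V d)) *
        (v (wd (V a) (V c)) * v (wd (V b) (V d))) :=
      mul_pos (mul_pos (v.pos wab) (v.pos wcd)) (mul_pos (v.pos wac) (v.pos wbd))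
    have h2 : GG v l (V a) (V b) * GG v l (V c) (V d) =
        GG v l (V a) (V c) * GG v l (V b) (V d) := by
      apply mul_left_cancel₀ hpos.ne'
      linear_combination h1
    have e1 : GG v l (V a) (V b) * GG v l (V c) (V d) =
        (mm v (V a) (V b) * mm v (V c) (V d)) ^ (l - 1) *
          (lam v l (V a) (V b) * lam v l (V c) (V d)) := by
      unfold GG
      rw [mul_pow]
      ring
    have e2 : GG v l (V a) (V c) * GG v l (V b) (V d) =
        (mm v (V a) (V c) * mm v (V b) (V d)) ^ (l - 1) *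
          (lam v l (V a) (V c) * lam v l (V b) (V d)) := by
      unfold GG
      rw [mul_pow]
      ring
    rw [e1, e2] at h2
    rcases le_total (v (wd (V a) (V b)) * v (wd (V c) (V d)))
      (v (wd (V a) (V c)) * v (wd (V b) (V d))) with hle | hle
    · obtain ⟨h5, h6⟩ := h4 (V a) (V b) (V c) (V d) wab wac wad wbc wbd wcd hle
      exact eq_of_prod (by omega) (mul_pos (mm_pos wab) (mm_pos wcd)) h5
        (mul_pos (lam_pos hl0 _ _) (lam_pos hl0 _ _)) h6 h2
    · obtain ⟨h5, h6⟩ := h4 (V a) (V c) (V b) (V d) wac wab wad wcb wcd wbd hle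
      exact (eq_of_prod (by omega) (mul_pos (mm_pos wac) (mm_pos wbd)) h5
        (mul_pos (lam_pos hl0 _ _) (lam_pos hl0 _ _)) h6 h2.symm).symm
  obtain ⟨ρ, hρ0, hρ⟩ := exists_rho hn hV hH
  have hVf := hV
  obtain ⟨hper, hwd⟩ := hV
  have hcong : ∀ i j : ℤ, (n : ℤ) ∣ i - j → V i = V j := by
    intro i j h
    obtain ⟨k, hk⟩ := h
    have hp : Function.Periodic V (n : ℤ) := hper
    have h1 := (hp.int_mul k) j
    have h2 : j + k * (n : ℤ) = i := by linarith
    rw [← h2]
    exact h1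
  obtain ⟨y, hy⟩ : ∃ y : ℤ → L × L, ∀ i, y i = ((V i).1 / ρ, (V i).2) := ⟨_, fun _ => rfl⟩
  have hR : 0 < v ρ := v.pos hρ0
  have hw : ∀ i j, wd (V i) (V j) = ρ * wd (y i) (y j) := by
    intro i j
    rw [hy, hy]
    unfold wd
    simp only
    field_simp
  have hwp : ∀ i j, wd (pw l (V i)) (pw l (V j)) = ρ ^ l * wd (pw l (y i)) (pw l (y j)) := by
    intro i j
    rw [hy, hy]
    unfold wd pw
    simp only
    rw [div_pow, div_pow]
    field_simp
  have hwy : ∀ i j : ℤ, ¬ (n : ℤ) ∣ i - j → wd (y i) (y j) ≠ 0 := by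
    intro i j hij h0
    apply hij
    rw [← hwd i j, hw, h0, mul_zero]
  have hmmy : ∀ i j : ℤ, ¬ (n : ℤ) ∣ i - j → mm v (y i) (y j) = nu v (y i) * nu v (y j) := by
    intro i j hij
    rw [hy, hy]
    exact hρ i j hij
  have hnu : ∀ i, 0 < nu v (y i) := by
    intro i
    rcases eq_or_lt_of_le (nu_nonneg (v := v) (y i)) with h | h
    · exfalso
      have h1 : v (y i).1 = 0 := le_antisymm (h ▸ le_max_left _ _) (v.nonneg _)
      have h2 : v (y i).2 = 0 := le_antisymm (h ▸ le_max_right _ _) (v.nonneg _)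
      rw [AbsoluteValue.eq_zero] at h1 h2
      apply hwy i (i + 1)
      · intro h3
        have h4 : i - (i + 1) = -1 := by ring
        rw [h4, dvd_neg] at h3
        have := Int.le_of_dvd one_pos h3
        omega
      · unfold wd
        rw [h1, h2]
        ring
    · exact h
  refine ⟨fun i j => v (wd (y i) (y j)) < nu v (y i) * nu v (y j),
    fun i => Real.sqrt (v ρ) * nu v (y i), ⟨⟨?_, ?_, ?_⟩, ?_, ?_, ?_, ?_, ?_⟩, ?_⟩
  · intro i
    have : wd (y i) (y i) = 0 := by unfold wd; ring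
    rw [this, map_zero]
    exact mul_pos (hnu i) (hnu i)
  · intro i j h
    have : wd (y j) (y i) = -wd (y i) (y j) := by unfold wd; ring
    rw [this, map_neg_eq_map, mul_comm]
    exact h
  · intro i j k h1 h2
    exact rel_trans hna (hnu i) (hnu j) (hnu k) h1 h2
  · intro i j j' hj h
    have : y j' = y j := by rw [hy, hy, hcong j j' hj]
    rw [this]
    exact h
  · intro i
    exact mul_pos (Real.sqrt_pos.2 hR) (hnu i)
  · intro i
    have : y (i + n) = y i := by rw [hy, hy, hper]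
    simp only [this]
  · intro i j h
    have h1 : v (wd (y i) (y j)) = nu v (y i) * nu v (y j) :=
      le_antisymm (wd_le hna _ _) (not_lt.1 h)
    unfold dl
    rw [hw, map_mul, h1]
    have h2 := Real.mul_self_sqrt hR.le
    linear_combination (-(nu v (y i) * nu v (y j))) * h2
  · intro i j h
    unfold dl
    rw [hw, map_mul]
    have h2 := Real.mul_self_sqrt hR.le
    have h3 : Real.sqrt (v ρ) * nu v (y i) * (Real.sqrt (v ρ) * nu v (y j)) =
        v ρ * (nu v (y i) * nu v (y j)) := by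
      linear_combination (nu v (y i) * nu v (y j)) * h2
    rw [h3, one_mul, one_mul]
    exact mul_lt_mul_of_pos_left h hR
  · intro i u j j' hD hrel
    obtain ⟨hiu, hij, hij', huj, huj', hjj'⟩ := hD
    -- the main inequality
    have hmain : v (Phi l (y i) (y j) * Phi l (y u) (y j') - Phi l (y i) (y j') * Phi l (y u) (y j)) <
        v (Phi l (y i) (y j') * Phi l (y u) (y j)) := by
      have hsw : ∀ a b : ℤ, wd (y b) (y a) = -wd (y a) (y b) := by
        intro a b
        unfold wd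
        ring
      rcases hrel with h | h
      · have h2 := key2 (v := v) hna hs hl (y j) (y j') (y i) (y u)
          (by rw [hsw]; exact neg_ne_zero.2 (hwy i j hij))
          (by rw [hsw]; exact neg_ne_zero.2 (hwy u j huj))
          (by rw [hsw]; exact neg_ne_zero.2 (hwy i j' hij'))
          (by rw [hsw]; exact neg_ne_zero.2 (hwy u j' huj')) (hmmy i u hiu) (hnu i) (hnu u) h
        rw [Phi_comm l (y j) (y i), Phi_comm l (y j') (y u), Phi_comm l (y j) (y u),
          Phi_comm l (y j') (y i)] at h2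
        rw [mul_comm (Phi l (y i) (y j')) (Phi l (y u) (y j))]
        exact h2
      · exact key2 (v := v) hna hs hl (y i) (y u) (y j) (y j') (hwy i j hij) (hwy i j' hij')
          (hwy u j huj) (hwy u j' huj') (hmmy j j' hjj') (hnu j) (hnu j') h
    obtain ⟨c, hc⟩ : ∃ c, c = ρ ^ (2 * l + 2) * (wd (y i) (y j) * wd (y u) (y j') * wd (y i) (y j') *
      wd (y u) (y j)) := ⟨_, rfl⟩
    have hc0 : c ≠ 0 := by
      rw [hc]
      exact mul_ne_zero (pow_ne_zero _ hρ0) (mul_ne_zero (mul_ne_zero (mul_ne_zero (hwy i j hij)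
        (hwy u j' huj')) (hwy i j' hij')) (hwy u j huj))
    have hD' : wd (pw l (V i)) (pw l (V j')) * wd (pw l (V u)) (pw l (V j)) *
        (wd (V i) (V j) * wd (V u) (V j')) = c * (Phi l (y i) (y j') * Phi l (y u) (y j)) := by
      rw [hwp, hwp, hw, hw, Phi_wd, Phi_wd, hc]
      ring
    have hN' : wd (pw l (V i)) (pw l (V j)) * wd (pw l (V u)) (pw l (V j')) *
        (wd (V i) (V j') * wd (V u) (V j)) = c * (Phi l (y i) (y j) * Phi l (y u) (y j')) := by
      rw [hwp, hwp, hw, hw, Phi_wd, Phi_wd, hc]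
      ring
    rw [hD', hN', ← mul_sub, map_mul, map_mul v c (Phi l (y i) (y j') * Phi l (y u) (y j))]
    exact mul_lt_mul_of_pos_left hmain (v.pos hc0)

end Pool.Agent.N281.UR.GSP
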