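import Pool.Agent.N236.UR.Stm5
import Pool.Agent.N106.UR.EPow

/-!
Project UR (helper236), part MR4: four point inequality for `mr` (helper281, after
`Pool/Agent/N106/UR/EPow.lean` by helper106).
-/

set_option autoImplicit false

namespace Pool.Agent.N281.UR.MR4

open Pool.Agent.N236.UR Pool.Agent.N236.UB

variable {L : Type} [Field L] {v : AbsoluteValue L ℝ}

theorem mr_eq {R : ℝ} (x y : L × L) :
    mr v R x y = max (max (v x.1) (R * v x.2) * v y.2) (v x.2 * max (v y.1) (R * v y.2)) := by
  unfold mr mm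
  rw [max_mul_of_nonneg _ _ (v.nonneg _), mul_max_of_nonneg _ _ (v.nonneg _), map_mul, map_mul]
  have h1 : R * v x.2 * v y.2 = R * (v x.2 * v y.2) := by ring
  have h2 : v x.2 * (R * v y.2) = R * (v x.2 * v y.2) := by ring
  rw [h1, h2]
  apply le_antisymm
  · refine max_le (max_le ?_ ?_) ?_
    · exact le_max_of_le_left (le_max_left _ _)
    · exact le_max_of_le_right (le_max_left _ _)
    · exact le_max_of_le_left (le_max_right _ _)
  · refine max_le (max_le ?_ ?_) (max_le ?_ ?_)
    · exact le_max_of_le_left (le_max_left _ _)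
    · exact le_max_right _ _
    · exact le_max_of_le_left (le_max_right _ _)
    · exact le_max_right _ _

theorem wd_le (hna : ∀ x y : L, v (x + y) ≤ max (v x) (v y)) (R : ℝ) (x y : L × L) :
    v (wd x y) ≤ mr v R x y := by
  have h1 := hna (x.1 * y.2) (-(x.2 * y.1))
  rw [map_neg_eq_map, ← sub_eq_add_neg] at h1
  exact h1.trans (le_max_left _ _)

theorem wd_eq (hna : ∀ x y : L, v (x + y) ≤ max (v x) (v y)) {R : ℝ} (x y : L × L)
    (h : max (v x.1) (R * v x.2) * v y.2 ≠ v x.2 * max (v y.1) (R * v y.2)) :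
    v (wd x y) = mr v R x y := by
  rw [mr_eq]
  rcases lt_or_gt_of_ne h with h1 | h1
  · rw [max_eq_right h1.le]
    have h2 : R * v y.2 < v y.1 := by
      by_contra hc
      push Not at hc
      rw [max_eq_right hc] at h1
      have h3 : R * v x.2 * v y.2 ≤ max (v x.1) (R * v x.2) * v y.2 :=
        mul_le_mul_of_nonneg_right (le_max_right _ _) (v.nonneg _)
      have h4 : v x.2 * (R * v y.2) = R * v x.2 * v y.2 := by ring
      rw [h4] at h1
      exact absurd h1 (not_lt.2 h3)
    rw [max_eq_left h2.le] at h1 ⊢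
    have h5 : v x.1 * v y.2 ≤ max (v x.1) (R * v x.2) * v y.2 :=
      mul_le_mul_of_nonneg_right (le_max_left _ _) (v.nonneg _)
    have h6 : v (x.1 * y.2) < v (x.2 * y.1) := by
      rw [map_mul, map_mul]
      exact lt_of_le_of_lt h5 h1
    have h7 := Pool.Agent.N106.UR.val_max hna h6.ne
    have h8 : v (wd x y) = v (x.1 * y.2 - x.2 * y.1) := rfl
    rw [h8, h7, max_eq_right h6.le, map_mul]
  · rw [max_eq_left h1.le]
    have h2 : R * v x.2 < v x.1 := by
      by_contra hc
      push Not at hc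
      rw [max_eq_right hc] at h1
      have h3 : v x.2 * (R * v y.2) ≤ v x.2 * max (v y.1) (R * v y.2) :=
        mul_le_mul_of_nonneg_left (le_max_right _ _) (v.nonneg _)
      have h4 : v x.2 * (R * v y.2) = R * v x.2 * v y.2 := by ring
      rw [h4] at h3
      exact absurd h1 (not_lt.2 h3)
    rw [max_eq_left h2.le] at h1 ⊢
    have h5 : v x.2 * v y.1 ≤ v x.2 * max (v y.1) (R * v y.2) :=
      mul_le_mul_of_nonneg_left (le_max_left _ _) (v.nonneg _)
    have h6 : v (x.2 * y.1) < v (x.1 * y.2) := by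
      rw [map_mul, map_mul]
      exact lt_of_le_of_lt h5 h1
    have h7 := Pool.Agent.N106.UR.val_max hna h6.ne'
    have h8 : v (wd x y) = v (x.1 * y.2 - x.2 * y.1) := rfl
    rw [h8, h7, max_eq_left h6.le, map_mul]

/-- four point inequality for `mr` -/
theorem t_mr4 : S_MR4 := by
  intro L _ v hna R hR a b c d _ _ _ _ _ _ h
  by_contra hlt
  push Not at hlt
  have hA : ∀ x : L × L, 0 ≤ max (v x.1) (R * v x.2) := fun x =>
    le_max_of_le_left (v.nonneg _)
  have h1 := Pool.Agent.N106.UR.real_four (hA a) (v.nonneg a.2) (hA b) (v.nonneg b.2)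
    (hA c) (v.nonneg c.2) (hA d) (v.nonneg d.2) (by
      have h2 := hlt
      rw [mr_eq, mr_eq, mr_eq, mr_eq] at h2
      exact h2)
  have hab := wd_eq hna a b h1.1
  have hcd := wd_eq hna c d h1.2
  have h3 : v (wd a c) * v (wd b d) ≤ mr v R a c * mr v R b d :=
    mul_le_mul (wd_le hna R _ _) (wd_le hna R _ _) (v.nonneg _)
      ((v.nonneg _).trans (wd_le hna R _ _))
  rw [hab, hcd] at h
  exact absurd (h.trans h3) (not_le.2 hlt)

end Pool.Agent.N281.UR.MR4
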